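import Pool.Agent.Helper50.BO.Top

namespace Pool.Agent.Helper50.Parked.DoublyLogarithmic

open Finset

/-- Every set system of maximum degree at most `t` on `n` points with `m` sets has discrepancy at
most `C (√t + √L (1 + log L))`, where `L = 1 + log (1 + log (1 + min n m))`. -/
theorem result : ∃ C : ℝ, ∀ (n m t : ℕ), 1 ≤ t → ∀ S : Fin m → Finset (Fin n),
    (∀ x : Fin n, (univ.filter (fun j => x ∈ S j)).card ≤ t) →
    ∀ L : ℝ, L = 1 + Real.log (1 + Real.log (1 + (min n m : ℕ))) →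
    ∃ χ : Fin n → ℤ, (∀ x, χ x = 1 ∨ χ x = -1) ∧ ∀ j : Fin m,
      |((∑ x ∈ S j, χ x : ℤ) : ℝ)| ≤ C * (√t + √L * (1 + Real.log L)) := by
  obtain ⟨C, hC⟩ := Pool.Agent.Helper50.BO.thmP
  obtain ⟨C', -, h⟩ := Pool.Agent.Helper50.BO.top hC
  refine ⟨C', ?_⟩
  intro n m t ht S hdeg L hL
  obtain ⟨χ, c1, c2⟩ := h (Fin n) (Fin m) S t ht hdeg
  refine ⟨χ, c1, fun j => (c2 j).trans (le_of_eq ?_)⟩
  rw [hL, Fintype.card_fin, Fintype.card_fin, add_comm ((min n m : ℕ) : ℝ) 1]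
  rfl

end Pool.Agent.Helper50.Parked.DoublyLogarithmic
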